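import Pool.Agent.L5helper46.HG.Tools

/-!
# Polynomial growth of the hat guessing number of sparse graphs of large girth

The hat guessing number of graphs without 4-cycles is not only unbounded: on graphs with at most `n` vertices, of
girth at least `g` and of small degree it reaches a power of `n`. It never exceeds `n`.
-/

set_option autoImplicit false

open Finset SimpleGraph

namespace Pool.Agent.Results.MP_a53771_co.PolynomialGrowth

open Pool.Agent.L5helper46.HG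

/-- The players on the vertices of `G` have a winning strategy in the hat guessing game with `q` colours. -/
def Wins {n : ℕ} (G : SimpleGraph (Fin n)) (q : ℕ) : Prop :=
  ∃ f : Fin n → (Fin n → Fin q) → Fin q,
    (∀ (v : Fin n) (c c' : Fin n → Fin q), (∀ u : Fin n, G.Adj v u → c u = c' u) → f v c = f v c') ∧
    ∀ c : Fin n → Fin q, ∃ v : Fin n, f v c = c v

/-- The choice of the parameter. -/
lemma exists_s {D n : ℕ} (hD : 1 ≤ D) (hn : 2 ^ (3 * D) ≤ n) :
    ∃ s : ℕ, 1 ≤ s ∧ 2 ^ (D * (2 * s + 1)) ≤ n ∧ n < 2 ^ (D * (2 * s + 3)) := by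
  have hex : ∃ s : ℕ, n < 2 ^ (D * (2 * s + 3)) :=
    ⟨n, lt_of_lt_of_le Nat.lt_two_pow_self (Nat.pow_le_pow_right (by norm_num) (by nlinarith))⟩
  classical
  obtain ⟨s, h1, h2⟩ : ∃ s, n < 2 ^ (D * (2 * s + 3)) ∧ ∀ t < s, ¬ n < 2 ^ (D * (2 * t + 3)) :=
    ⟨Nat.find hex, Nat.find_spec hex, fun t ht => Nat.find_min hex ht⟩
  have hs : s ≠ 0 := by
    rintro rfl
    rw [mul_zero, zero_add, mul_comm] at h1
    omega
  obtain ⟨t, rfl⟩ : ∃ t, s = t + 1 := ⟨s - 1, by omega⟩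
  refine ⟨t + 1, by omega, ?_, h1⟩
  have h3 := not_lt.1 (h2 t (by omega))
  rwa [show 2 * (t + 1) + 1 = 2 * t + 3 by ring]

theorem result :
    -- graphs of girth at least `g` with a large hat guessing number
    (∀ g k n : ℕ, 6 * g + 7 ≤ k → 1 ≤ n → ∃ m ≤ n, ∃ G : SimpleGraph (Fin m),
      (g : ℕ∞) ≤ G.egirth ∧ (5 ≤ g → (cycleGraph 4).Free G) ∧
      (∀ v, ((G.neighborSet v).ncard : ℝ) ≤ (n : ℝ) ^ (3 / (k : ℝ))) ∧
      ∀ q : ℕ, 1 ≤ q → (q : ℝ) ≤ (n : ℝ) ^ (1 / (5 * (k : ℝ) ^ 2 * 2 ^ (k ^ 2))) → Wins G q) ∧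
    -- the trivial upper bound
    ∀ (n q : ℕ) (G : SimpleGraph (Fin n)), Wins G q → q ≤ n := by
  refine ⟨fun g k n hk hn => ?_, fun n q G h => win_le h⟩
  have hk1 : 7 ≤ k := by omega
  have hkk : 1 ≤ k * k := by nlinarith
  obtain ⟨M, hM⟩ : ∃ M, M = 2 ^ (k * k) - 1 := ⟨_, rfl⟩
  have h2k : 2 ≤ 2 ^ (k * k) := by
    calc 2 = 2 ^ 1 := by norm_num
      _ ≤ _ := Nat.pow_le_pow_right (by norm_num) hkk
  have hM1 : 1 ≤ M := by omega
  have hM2 : M + 1 = 2 ^ (k * k) := by omega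
  obtain ⟨D, hD⟩ : ∃ D, D = k * k * M := ⟨_, rfl⟩
  have hD1 : 1 ≤ D := by rw [hD]; exact Nat.mul_pos (by omega) (by omega)
  have hn1 : (1 : ℝ) ≤ n := by exact_mod_cast hn
  have hk0 : (0 : ℝ) < k := by exact_mod_cast (by omega : 0 < k)
  have hden : (0 : ℝ) < 5 * (k : ℝ) ^ 2 * 2 ^ (k ^ 2) := by positivity
  have hDle : (D : ℝ) ≤ (k : ℝ) ^ 2 * 2 ^ (k ^ 2) := by
    have h1 : D ≤ k ^ 2 * 2 ^ (k ^ 2) := by
      rw [hD, pow_two]
      exact Nat.mul_le_mul_left _ (by omega)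
    exact_mod_cast h1
  by_cases hbig : 2 ^ (3 * D) ≤ n
  · obtain ⟨s, hs, h1, h2⟩ := exists_s hD1 hbig
    obtain ⟨G, g1, g2, g3⟩ := quant g k s hk hs
    have e1 : 2 ^ (k * k * ((2 ^ (k * k) - 1) * (2 * s + 1))) = 2 ^ (D * (2 * s + 1)) := by
      rw [hD, ← hM, mul_assoc (k * k)]
    refine ⟨_, by rw [e1]; exact h1, G, g1, fun hg => c4free (le_trans (by exact_mod_cast hg) g1), fun v => ?_,
      fun q hq hqn => ?_⟩
    · obtain ⟨N, n1, n2⟩ := g2 v
      have h3 : (G.neighborSet v).ncard ≤ 9 * (2 ^ (k * ((2 ^ (k * k) - 1) * (2 * s + 1)))) ^ 2 := by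
        refine le_trans ?_ n1
        rw [← Set.ncard_coe_finset]
        exact Set.ncard_le_ncard (fun u hu => n2 u hu) (Finset.finite_toSet N)
      obtain ⟨x, hx⟩ : ∃ x, x = (2 ^ (k * k) - 1) * (2 * s + 1) := ⟨_, rfl⟩
      have h3' : (G.neighborSet v).ncard ≤ 9 * (2 ^ (k * x)) ^ 2 := by
        rw [hx]
        exact h3
      have hx1 : 3 ≤ x := by rw [hx, ← hM]; nlinarith
      have h4 : 9 * (2 ^ (k * x)) ^ 2 ≤ 2 ^ (3 * (k * x)) := by
        have h5 : 2 ^ 4 ≤ 2 ^ (k * x) := Nat.pow_le_pow_right (by norm_num) (by nlinarith)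
        rw [show 2 ^ (3 * (k * x)) = 2 ^ (k * x) * (2 ^ (k * x)) ^ 2 by rw [mul_comm 3, pow_mul]; ring]
        exact Nat.mul_le_mul_right _ (by omega)
      have h6 : ((G.neighborSet v).ncard : ℝ) ≤ 2 ^ (3 * (k * x)) := by exact_mod_cast h3'.trans h4
      refine h6.trans ?_
      have h7 : (2 : ℝ) ^ (k * k * x) ≤ n := by
        have : 2 ^ (k * k * x) ≤ n := by
          refine le_trans (le_of_eq ?_) h1
          rw [hD, hx, ← hM, mul_assoc (k * k)]
        exact_mod_cast this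
      calc (2 : ℝ) ^ (3 * (k * x)) = ((2 : ℝ) ^ (k * k * x)) ^ (3 / (k : ℝ)) := by
            rw [← Real.rpow_natCast, ← Real.rpow_natCast, ← Real.rpow_mul (by norm_num)]
            congr 1
            push_cast
            field_simp
        _ ≤ (n : ℝ) ^ (3 / (k : ℝ)) := Real.rpow_le_rpow (by positivity) h7 (by positivity)
    · refine win_mono g3 hq ?_
      have h3 : (q : ℝ) ≤ 2 ^ s := by
        refine hqn.trans ?_
        have h4 : (n : ℝ) ≤ (2 : ℝ) ^ ((D * (2 * s + 3) : ℕ) : ℝ) := by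
          rw [Real.rpow_natCast]
          exact_mod_cast h2.le
        calc (n : ℝ) ^ (1 / (5 * (k : ℝ) ^ 2 * 2 ^ (k ^ 2))) ≤
              ((2 : ℝ) ^ ((D * (2 * s + 3) : ℕ) : ℝ)) ^ (1 / (5 * (k : ℝ) ^ 2 * 2 ^ (k ^ 2))) :=
              Real.rpow_le_rpow (by positivity) h4 (by positivity)
          _ = (2 : ℝ) ^ (((D * (2 * s + 3) : ℕ) : ℝ) * (1 / (5 * (k : ℝ) ^ 2 * 2 ^ (k ^ 2)))) := by
              rw [← Real.rpow_mul (by norm_num)]
          _ ≤ (2 : ℝ) ^ (s : ℝ) := by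
              refine Real.rpow_le_rpow_of_exponent_le (by norm_num) ?_
              rw [mul_one_div, div_le_iff₀ hden]
              push_cast
              have hs' : (1 : ℝ) ≤ s := by exact_mod_cast hs
              calc (D : ℝ) * (2 * s + 3) ≤ ((k : ℝ) ^ 2 * 2 ^ (k ^ 2)) * (5 * s) :=
                    mul_le_mul hDle (by linarith) (by positivity) (by positivity)
                _ = _ := by ring
          _ = 2 ^ s := Real.rpow_natCast _ _
      exact_mod_cast h3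
  · refine ⟨1, hn, ⊥, ?_, fun hg => ?_, fun v => ?_, fun q hq hqn => ?_⟩
    · rw [egirth_bot]
      exact le_top
    · exact c4free (by rw [egirth_bot]; exact le_top)
    · have h3 : ((⊥ : SimpleGraph (Fin 1)).neighborSet v).ncard = 0 := by simp
      rw [h3, Nat.cast_zero]
      positivity
    · have h3 : (q : ℝ) < 2 := by
        refine hqn.trans_lt ?_
        have h4 : (n : ℝ) ≤ (2 : ℝ) ^ ((3 * D : ℕ) : ℝ) := by
          rw [Real.rpow_natCast]
          exact_mod_cast (not_le.1 hbig).le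
        calc (n : ℝ) ^ (1 / (5 * (k : ℝ) ^ 2 * 2 ^ (k ^ 2))) ≤
              ((2 : ℝ) ^ ((3 * D : ℕ) : ℝ)) ^ (1 / (5 * (k : ℝ) ^ 2 * 2 ^ (k ^ 2))) :=
              Real.rpow_le_rpow (by positivity) h4 (by positivity)
          _ = (2 : ℝ) ^ (((3 * D : ℕ) : ℝ) * (1 / (5 * (k : ℝ) ^ 2 * 2 ^ (k ^ 2)))) := by
              rw [← Real.rpow_mul (by norm_num)]
          _ < (2 : ℝ) ^ (1 : ℝ) := by
              refine Real.rpow_lt_rpow_of_exponent_lt (by norm_num) ?_
              rw [mul_one_div, div_lt_iff₀ hden]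
              push_cast
              have h5 : (0 : ℝ) < (k : ℝ) ^ 2 * 2 ^ (k ^ 2) := by positivity
              nlinarith
          _ = 2 := Real.rpow_one _
      have h4 : q < 2 := by exact_mod_cast h3
      obtain rfl : q = 1 := by omega
      exact ⟨fun _ _ => 0, fun _ _ _ _ => rfl, fun c => ⟨0, Subsingleton.elim _ _⟩⟩

end Pool.Agent.Results.MP_a53771_co.PolynomialGrowth
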